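import Mathlib

set_option autoImplicit false
open Matrix
open scoped MatrixOrder ComplexOrder

namespace Pool.Agent.Results.MP_26c808_an.Cex

abbrev M := Matrix (Fin 3) (Fin 3) ℂ

/-- `|X| = (X^* X)^(1/2)` -/
noncomputable def absM (X : M) : M := cfc Real.sqrt (Xᴴ * X)

/-- `|X|^p` by the functional calculus of `|X|` -/
noncomputable def absPow (X : M) (p : ℝ) : M := cfc (fun t : ℝ => t ^ p) (absM X)

/-- `x` majorizes `y` (both listed in decreasing order) -/
def Maj {m : ℕ} (x y : Fin m → ℝ) : Prop :=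
  (∀ k, 1 ≤ k → k ≤ m - 1 → ∑ i with i.1 < k, y i ≤ ∑ i with i.1 < k, x i) ∧ ∑ i, x i = ∑ i, y i

lemma Maj.last {m : ℕ} (hm : m = 3) {x y : Fin m → ℝ} (h : Maj x y) (hx : Antitone y) {μ : ℝ}
    (h1 : ∀ i, μ ≤ x i) (i : Fin m) : μ ≤ y i := by
  subst hm
  have a := h.1 2 (by norm_num) (by norm_num)
  have b := h.2
  simp only [Finset.sum_filter, Fin.sum_univ_three] at a b
  norm_num at a
  have := h1 2
  have : y 2 ≤ y i := hx (Fin.le_last i)
  linarith

lemma cub (T : M) (hT : IsSelfAdjoint T) (a b c d : ℝ) :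
    cfc (fun t : ℝ => a * t ^ 3 + b * t ^ 2 + c * t + d) T =
      a • T ^ 3 + b • T ^ 2 + c • T + d • 1 := by
  rw [cfc_add T _ _, cfc_add T _ _, cfc_add T _ _, cfc_const_mul _ _ T, cfc_const_mul _ _ T,
    cfc_const_mul _ _ T, cfc_pow_id T, cfc_pow_id T, cfc_id' ℝ T, cfc_const d T,
    Algebra.algebraMap_eq_smul_one]

lemma spec (T : M) (hT : IsSelfAdjoint T)
    (h : (1 : ℝ) • T ^ 3 + (-97 / 80 : ℝ) • T ^ 2 + (3 / 200 : ℝ) • T + (0 : ℝ) • 1 = 0) :
    ∀ t ∈ spectrum ℝ T, t = 0 ∨ t = 1 / 80 ∨ t = 6 / 5 := by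
  intro t ht
  rw [← cub T hT, ← cfc_zero ℝ T] at h
  have := eqOn_of_cfc_eq_cfc h (by fun_prop) continuousOn_const hT ht
  have e : t * ((t - 1 / 80) * (t - 6 / 5)) = 0 := by
    simp only [Pi.zero_apply] at this; linarith
  simpa only [mul_eq_zero, sub_eq_zero] using e

lemma absPow_eq (X : M) {p : ℝ} (hp : 0 ≤ p) :
    absPow X p = cfc (fun t : ℝ => Real.sqrt t ^ p) (Xᴴ * X) :=
  (cfc_comp' (fun t : ℝ => t ^ p) Real.sqrt (Xᴴ * X) (Real.continuous_rpow_const hp).continuousOn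
    Real.continuous_sqrt.continuousOn (isHermitian_conjTranspose_mul_self X)).symm

noncomputable def A : M := !![16 / 5, 4 / 5, 3 / 5; 4 / 5, 2 / 5, 1 / 5; 3 / 5, 1 / 5, 1 / 5]
noncomputable def B : M := !![0, 0, 0; 0, 3 / 4, -1; 0, -1, 3]

lemma psd (C : M) (d : Fin 3 → ℝ) (hd : ∀ i, 0 ≤ d i) :
    (Cᴴ * diagonal (fun i => (d i : ℂ)) * C).PosSemidef :=
  (PosSemidef.diagonal fun i => Complex.zero_le_real.2 (hd i)).conjTranspose_mul_mul_same C

lemma ev {X : M} (h : X.IsHermitian) (μ : ℝ) : (∀ i, μ ≤ h.eigenvalues₀ i) ↔ μ • (1 : M) ≤ X := by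
  rw [← Algebra.algebraMap_eq_smul_one, algebraMap_le_iff_le_spectrum h,
    h.spectrum_real_eq_range_eigenvalues, Set.forall_mem_range]
  exact (Equiv.forall_congr_right (Fintype.equivOfCardEq (Fintype.card_fin _)).symm).symm

theorem result : ∃ A B : M, A.PosSemidef ∧ B.PosSemidef ∧ ∀ p : ℝ, 3 ≤ p →
    ∃ (h₁ : (A ^ 2 + absPow (B * A) p).IsHermitian)
      (h₂ : (A ^ 2 + absPow (A * B) p).IsHermitian), ¬ Maj h₁.eigenvalues₀ h₂.eigenvalues₀ := by
  have hA : A.PosSemidef := by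
    convert psd !![1, 1 / 4, 3 / 16; 0, 1, 1 / 4; 0, 0, 1] ![16 / 5, 1 / 5, 3 / 40]
      (fun i => by fin_cases i <;> norm_num) using 1
    ext i j
    fin_cases i <;> fin_cases j <;> simp [A, mul_apply, Fin.sum_univ_three, diagonal, map_ofNat] <;> norm_num
  have hB : B.PosSemidef := by
    convert psd !![1, 0, 0; 0, 1, -4 / 3; 0, 0, 1] ![0, 3 / 4, 5 / 3]
      (fun i => by fin_cases i <;> norm_num) using 1
    ext i j
    fin_cases i <;> fin_cases j <;> simp [B, mul_apply, Fin.sum_univ_three, diagonal, map_ofNat] <;> norm_num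
  refine ⟨A, B, hA, hB, fun p hp => ?_⟩
  have hh : ∀ X, (A ^ 2 + absPow X p).IsHermitian := fun X =>
    (hA.1.pow 2).add (cfc_predicate (R := ℝ) _ _)
  refine ⟨hh _, hh _, fun hM => ?_⟩
  have cf : Continuous fun t : ℝ => Real.sqrt t ^ p :=
    (Real.continuous_rpow_const (by linarith)).comp Real.continuous_sqrt
  have f0 : Real.sqrt 0 ^ p = 0 := by rw [Real.sqrt_zero, Real.zero_rpow (by linarith)]
  have f1 : Real.sqrt (1 / 80) ^ p ≤ 1 / 512 := by
    have a : Real.sqrt (1 / 80) ≤ 1 / 8 := Real.sqrt_le_iff.2 (by norm_num)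
    calc _ ≤ (1 / 8 : ℝ) ^ p := Real.rpow_le_rpow (Real.sqrt_nonneg _) a (by linarith)
      _ ≤ (1 / 8 : ℝ) ^ ((3 : ℕ) : ℝ) :=
        Real.rpow_le_rpow_of_exponent_ge (by norm_num) (by norm_num) (by simpa using hp)
      _ = _ := by rw [Real.rpow_natCast]; norm_num
  have f1' : 0 ≤ Real.sqrt (1 / 80) ^ p := by positivity
  have f2 : 6 / 5 ≤ Real.sqrt (6 / 5) ^ p := by
    calc (6 / 5 : ℝ) = Real.sqrt (6 / 5) ^ ((2 : ℕ) : ℝ) := by
          rw [Real.rpow_natCast, Real.sq_sqrt (by norm_num)]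
      _ ≤ _ := Real.rpow_le_rpow_of_exponent_le (Real.one_le_sqrt.2 (by norm_num))
          (by push_cast; linarith)
  set F := Real.sqrt (6 / 5) ^ p
  have e1 : (B * A)ᴴ * (B * A) =
      !![1, 1 / 5, 2 / 5; 1 / 5, 1 / 20, 3 / 40; 2 / 5, 3 / 40, 13 / 80] := by
    ext i j
    fin_cases i <;> fin_cases j <;> simp [A, B, mul_apply, Fin.sum_univ_three, map_ofNat] <;> norm_num
  have e2 : (A * B)ᴴ * (A * B) = !![0, 0, 0; 0, 1 / 80, 0; 0, 0, 6 / 5] := by
    ext i j
    fin_cases i <;> fin_cases j <;> simp [A, B, mul_apply, Fin.sum_univ_three, map_ofNat] <;> norm_num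
  have s1 : IsSelfAdjoint ((B * A)ᴴ * (B * A)) := isHermitian_conjTranspose_mul_self _
  have s2 : IsSelfAdjoint ((A * B)ᴴ * (A * B)) := isHermitian_conjTranspose_mul_self _
  have l1 := cfc_mono (a := (B * A)ᴴ * (B * A))
    (f := fun t : ℝ => 0 * t ^ 3 + (16 / 19) * t ^ 2 + (-1 / 95) * t + 0)
    (g := fun t : ℝ => Real.sqrt t ^ p) (fun t ht => by
      rcases spec _ s1 (by
        rw [e1]; ext i j
        fin_cases i <;> fin_cases j <;> simp [pow_succ, mul_apply, Fin.sum_univ_three] <;>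
          norm_num) t ht with rfl | rfl | rfl
      · rw [f0]; norm_num
      all_goals linarith) (by fun_prop) cf.continuousOn
  have l2 := cfc_mono (a := (A * B)ᴴ * (A * B)) (f := fun t : ℝ => Real.sqrt t ^ p)
    (g := fun t : ℝ => 0 * t ^ 3 + (40 / 57 * F) * t ^ 2 + (-1 / 114 * F) * t + 1 / 512)
    (fun t ht => by
      rcases spec _ s2 (by
        rw [e2]; ext i j
        fin_cases i <;> fin_cases j <;> simp [pow_succ, mul_apply, Fin.sum_univ_three] <;>
          norm_num) t ht with rfl | rfl | rfl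
      · rw [f0]; norm_num
      all_goals linarith) cf.continuousOn (by fun_prop)
  rw [cub _ s1, ← absPow_eq _ (by linarith), e1] at l1
  rw [cub _ s2, ← absPow_eq _ (by linarith), e2] at l2
  have g1 : (39 / 1000 : ℝ) • (1 : M) ≤ A ^ 2 + absPow (B * A) p := by
    refine le_trans ?_ (add_le_add_right l1 _)
    rw [le_iff]
    have := psd !![1, 3200 / 12201, 2600 / 12201; 0, 1, -440 / 397; 0, 0, 1]
      ![12201 / 1000, 21041 / 12201000, 1917 / 397000] (fun i => by fin_cases i <;> norm_num)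
    refine (congrArg PosSemidef ?_).mpr this
    ext i j
    fin_cases i <;> fin_cases j <;>
      simp [A, pow_succ, mul_apply, Fin.sum_univ_three, diagonal, map_ofNat] <;> norm_num
  have g2 := ((ev (hh _) _).1 (hM.last (by simp) (hh _).eigenvalues₀_antitone
    ((ev (hh _) _).2 g1))).trans (add_le_add_right l2 _)
  have := (Complex.le_def.1 ((le_iff.1 g2).dotProduct_mulVec_nonneg ![4, -15, 0])).1
  simp [A, pow_succ, mul_apply, Fin.sum_univ_three, dotProduct, mulVec, one_apply] at this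
  norm_num at this
  linarith

end Pool.Agent.Results.MP_26c808_an.Cex
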